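import Pool.Agent.Q222.JD.All

/-!
# A joint recursive distributional equation in a diluted quadratic spin glass: exactly one solution

`Phi α β D π` is the map of the problem: with independent summands `((U_k, X_k), (ξ_k, ζ_k))` of law
`π ⊗ D ⊗ D`, an independent `R` of law Poisson(2α) and `W_k = 1 + 2βξ_k²X_k`, it is the law of
`(1 - 2β ∑_{k<R} ξ_k ζ_k U_k X_k / W_k, 1/(1 + 2β ∑_{k<R} ζ_k²/W_k))`.

The class of laws: probability laws `π` of a pair `(U, X)` with `0 ≤ X ≤ 1` and `E (U X)² < ∞` (for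
instance all the laws with `E U² < ∞`).

Theorem: for all `α, β > 0` and all symmetric `D` with finite second moment there is exactly one
fixed point in this class, and it satisfies `E X U² < ∞`.

Proof: see `Pool/Agent/Q222/JD/Stmts.lean`. With `a = 2βξ²X`, `b = 2βζ²X'` (`X'` an independent copy
of `X`) and `G(π) = 2α E ab/(1+a+b)² X U²` the Mecke formula and the symmetry of `D` give, for
the map with the constant `s` in place of `1`, the inequality
`E (U X)² (Phi_s π) + G(Phi_s π) ≤ s² + G(π)`. For `s = 0` it telescopes, so the difference of two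
solutions, iterated, tends to zero; for `s = 1` it gives tight iterates.
-/

set_option autoImplicit false

open MeasureTheory ProbabilityTheory
open scoped ENNReal NNReal

namespace Pool.Agent.Results.MP_75c26c_pr.JointEquation

/-- One summand: the pair `(U, X)` and the pair `(ξ, ζ)`. -/
abbrev Summand := (ℝ × ℝ) × (ℝ × ℝ)

/-- `W = 1 + 2 β ξ² X`. -/
noncomputable def W (β : ℝ) (y : Summand) : ℝ := 1 + 2 * β * y.2.1 ^ 2 * y.1.2

/-- The map `Φ` of the problem: the law of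
`(1 - 2β ∑_{k<R} ξ_k ζ_k U_k X_k / W_k, 1 / (1 + 2β ∑_{k<R} ζ_k² / W_k))` for independent summands
`((U_k, X_k), (ξ_k, ζ_k))` of law `π ⊗ D ⊗ D` and an independent `R` of law Poisson(2α). -/
noncomputable def Phi (α : ℝ≥0) (β : ℝ) (D : Measure ℝ) (π : Measure (ℝ × ℝ)) :
    Measure (ℝ × ℝ) :=
  ((Measure.infinitePi fun _ : ℕ => π.prod (D.prod D)).prod (poissonMeasure (2 * α))).map
    fun z : (ℕ → Summand) × ℕ =>
      (1 - 2 * β * ∑ k ∈ Finset.range z.2,
          (z.1 k).2.1 * (z.1 k).2.2 * (z.1 k).1.1 * (z.1 k).1.2 / W β (z.1 k),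
        1 / (1 + 2 * β * ∑ k ∈ Finset.range z.2, (z.1 k).2.2 ^ 2 / W β (z.1 k)))

/-- The class of laws: probability laws of pairs `(U, X)` with `0 ≤ X ≤ 1` and `E (U X)² < ∞`. -/
structure Class (π : Measure (ℝ × ℝ)) : Prop where
  prob : IsProbabilityMeasure π
  unit : ∀ᵐ z ∂π, 0 ≤ z.2 ∧ z.2 ≤ 1
  sq : ∫⁻ z, ENNReal.ofReal ((z.1 * z.2) ^ 2) ∂π < ∞

theorem Phi_eq (α : ℝ≥0) (β : ℝ) (D : Measure ℝ) (π : Measure (ℝ × ℝ)) :
    Phi α β D π = Pool.Agent.Q222.JD.Phi α β 1 D π := by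
  unfold Phi Pool.Agent.Q222.JD.Phi Pool.Agent.Q222.JD.seq Pool.Agent.Q222.JD.ing
  congr 1
  funext z
  unfold Pool.Agent.Q222.JD.out Pool.Agent.Q222.JD.C Pool.Agent.Q222.JD.T
  rw [Finset.mul_sum, Finset.mul_sum]
  refine Prod.ext ?_ ?_
  · simp only
    congr 1
    refine Finset.sum_congr rfl fun k _ => ?_
    exact (mul_div_assoc _ _ _).symm
  · simp only
    congr 2
    refine Finset.sum_congr rfl fun k _ => ?_
    exact (mul_div_assoc _ _ _).symm

/-- **Existence and uniqueness of the joint law.** -/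
theorem result : ∀ (α : ℝ≥0) (β : ℝ) (D : Measure ℝ), 0 < α → 0 < β → IsProbabilityMeasure D →
    D.map (fun x => -x) = D → ∫⁻ x, ENNReal.ofReal (x ^ 2) ∂D < ∞ →
    ∃ π : Measure (ℝ × ℝ), Class π ∧ Phi α β D π = π ∧
      ∫⁻ z, ENNReal.ofReal (z.2 * z.1 ^ 2) ∂π < ∞ ∧
      ∀ π' : Measure (ℝ × ℝ), Class π' → Phi α β D π' = π' → π' = π := by
  intro α β D hα hβ hD hsymm hsq
  obtain ⟨π, h1, h2, h3, h4⟩ := Pool.Agent.Q222.JD.all α β D hα hβ hD hsymm hsq
  refine ⟨π, ⟨h1.p1, h1.I, h1.sq⟩, by rw [Phi_eq]; exact h3, h2, fun π' hC hfix => ?_⟩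
  refine h4 π' ⟨hC.prob, hC.unit, hC.sq⟩ ?_
  rw [← Phi_eq]; exact hfix

end Pool.Agent.Results.MP_75c26c_pr.JointEquation
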